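import Mathlib
import Pool.Agent.Q12.WN.Asm

/-! Euler products with bounded roots, and integer combinations of them. -/

set_option autoImplicit false

open Complex MeasureTheory Set Filter Topology
open Pool.Agent.W189.TP (DS DS_diff DS_norm_le summ_mono)

namespace Pool.Agent.Q12.EC

open Pool.Agent.Q12.WN

variable {P : Type*} {q : P → ℝ} {n : ℕ}

/-- `∑_{p, k} (∑_i β_i(p)^k) / (k q(p)^{ks})` -/
noncomputable def ex (q : P → ℝ) (β : P → Fin n → ℂ) (s : ℂ) : ℂ :=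
  ∑' y : P × ℕ, (∑ i, β y.1 i ^ (y.2 + 1)) / ((y.2 : ℂ) + 1) * cexp (-(s * LG q y))

theorem tr_le {β : P → Fin n → ℂ} (hβ : ∀ p i, ‖β p i‖ ≤ 1) (p : P) (k : ℕ) : ‖∑ i, β p i ^ k‖ ≤ n := by
  refine (norm_sum_le _ _).trans ?_
  calc ∑ i, ‖β p i ^ k‖ ≤ ∑ _i : Fin n, (1 : ℝ) := Finset.sum_le_sum fun i _ => by
        rw [norm_pow]
        exact pow_le_one₀ (norm_nonneg _) (hβ p i)
    _ = n := by simp

theorem ex_summ (hq : PSys q) {β : P → Fin n → ℂ} (hβ : ∀ p i, ‖β p i‖ ≤ 1) {s : ℂ} (hs : 1 < s.re) :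
    Summable fun y : P × ℕ => (∑ i, β y.1 i ^ (y.2 + 1)) / ((y.2 : ℂ) + 1) * cexp (-(s * LG q y)) := by
  refine Summable.of_norm_bounded ((one_summ hq hs).mul_left (n : ℝ)) fun y => ?_
  have h1 : ‖((y.2 : ℂ) + 1)‖ = (y.2 : ℝ) + 1 := by
    rw [show ((y.2 : ℂ) + 1) = (((y.2 : ℝ) + 1 : ℝ) : ℂ) by push_cast; rfl, Complex.norm_real, Real.norm_eq_abs,
      abs_of_nonneg (by positivity)]
  rw [norm_mul, norm_div, h1, Complex.norm_exp, Complex.neg_re, Complex.re_mul_ofReal, abs_one]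
  have h2 := tr_le hβ y.1 (y.2 + 1)
  have h3 : 0 ≤ Real.exp (-(s.re * LG q y)) := (Real.exp_pos _).le
  calc ‖∑ i, β y.1 i ^ (y.2 + 1)‖ / ((y.2 : ℝ) + 1) * Real.exp (-(s.re * LG q y))
      ≤ (n : ℝ) / ((y.2 : ℝ) + 1) * Real.exp (-(s.re * LG q y)) := by gcongr
    _ = (n : ℝ) * (1 / ((y.2 : ℝ) + 1) * Real.exp (-(s.re * LG q y))) := by ring

theorem ex_prod (hq : PSys q) {β : P → Fin n → ℂ} (hβ : ∀ p i, ‖β p i‖ ≤ 1) {s : ℂ} (hs : 1 < s.re) :
    HasProd (fun p => ∏ i, (1 - β p i * cexp (-(s * Real.log (q p))))⁻¹) (cexp (ex q β s)) := by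
  have hz : ∀ p i, ‖β p i * cexp (-(s * Real.log (q p)))‖ < 1 := fun p i => by
    rw [norm_mul, Complex.norm_exp, Complex.neg_re, Complex.re_mul_ofReal]
    refine lt_of_le_of_lt (mul_le_of_le_one_left (Real.exp_pos _).le (hβ p i)) ?_
    rw [Real.exp_lt_one_iff]
    have := Real.log_pos (hq.one_lt p)
    nlinarith
  have h1 : ∀ p, HasSum (fun k : ℕ => (∑ i, β p i ^ (k + 1)) / ((k : ℂ) + 1) * cexp (-(s * LG q (p, k))))
      (∑ i, -Complex.log (1 - β p i * cexp (-(s * Real.log (q p))))) := fun p => by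
    have h2 : ∀ i, HasSum (fun k : ℕ => (β p i * cexp (-(s * Real.log (q p)))) ^ (k + 1) / (((k + 1 : ℕ)) : ℂ))
        (-Complex.log (1 - β p i * cexp (-(s * Real.log (q p))))) := fun i => by
      have h3 := Complex.hasSum_taylorSeries_neg_log (hz p i)
      rw [← hasSum_nat_add_iff' 1] at h3
      simpa using h3
    have h4 := hasSum_sum (s := Finset.univ) fun i (_ : i ∈ (Finset.univ : Finset (Fin n))) => h2 i
    refine h4.congr_fun fun k => ?_
    show _ = _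
    rw [cexp_LG]
    simp only
    rw [Finset.sum_div, Finset.sum_mul]
    refine Finset.sum_congr rfl fun i _ => ?_
    push_cast
    rw [mul_pow]
    ring
  have h5 := ((ex_summ hq hβ hs).hasSum.prod_fiberwise h1).cexp
  refine h5.congr_fun fun p => ?_
  show _ = cexp _
  rw [Complex.exp_sum]
  refine Finset.prod_congr rfl fun i _ => ?_
  rw [Complex.exp_neg (Complex.log _), Complex.exp_log]
  intro h6
  have h7 := hz p i
  rw [sub_eq_zero] at h6
  rw [← h6, norm_one] at h7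
  exact lt_irrefl _ h7

end Pool.Agent.Q12.EC
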