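import Mathlib
import Pool.Agent.Q12.EC.Exp

/-! One-sided bounds for integer combinations of coefficients of Euler products. -/

set_option autoImplicit false

open Complex MeasureTheory Set Filter Topology
open Pool.Agent.W189.TP (DS DS_diff DS_norm_le summ_mono)

namespace Pool.Agent.Q12.EC

open Pool.Agent.Q12.WN

variable {P : Type*} {q : P → ℝ} {n : ℕ} {ι : Type*} [Fintype ι]

/-- the coefficient of the combination -/
noncomputable def cf (m : ι → ℤ) (β : ι → P → Fin n → ℂ) (y : P × ℕ) : ℝ :=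
  (∑ j, (m j : ℂ) * ∑ i, β j y.1 i ^ (y.2 + 1)).re / ((y.2 : ℝ) + 1)

theorem cf_abs {m : ι → ℤ} {β : ι → P → Fin n → ℂ} (hβ : ∀ j p i, ‖β j p i‖ ≤ 1) (y : P × ℕ) :
    |cf m β y| ≤ (∑ j, |(m j : ℝ)| * n) * (|(1 : ℝ)| / ((y.2 : ℝ) + 1)) := by
  unfold cf
  rw [abs_div, abs_of_nonneg (by positivity : (0 : ℝ) ≤ (y.2 : ℝ) + 1), abs_one, mul_one_div]
  gcongr
  refine (Complex.abs_re_le_norm _).trans ((norm_sum_le _ _).trans (Finset.sum_le_sum fun j _ => ?_))
  rw [norm_mul]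
  have h1 : ‖((m j : ℤ) : ℂ)‖ = |(m j : ℝ)| := by
    rw [← Complex.ofReal_intCast, Complex.norm_real, Real.norm_eq_abs]
  rw [h1]
  exact mul_le_mul_of_nonneg_left (tr_le (hβ j) y.1 _) (abs_nonneg _)

/-- order of a quotient of products of entire functions -/
theorem ord_comb {G : ι → ℂ → ℂ} (hG : ∀ j, Differentiable ℂ (G j)) {m : ι → ℤ} {ρ : ℂ}
    (hne : ∀ j, analyticOrderAt (G j) ρ ≠ ⊤) :
    meromorphicOrderAt (fun s => (∏ j, G j s ^ (m j).toNat) / ∏ j, G j s ^ (-(m j)).toNat) ρ =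
      ((∑ j, m j * (analyticOrderNatAt (G j) ρ : ℤ) : ℤ) : WithTop ℤ) := by
  classical
  have hm : ∀ j, MeromorphicAt (G j) ρ := fun j => ((hG j).analyticAt ρ).meromorphicAt
  have e1 : (fun s => (∏ j, G j s ^ (m j).toNat) / ∏ j, G j s ^ (-(m j)).toNat) = fun s => ∏ j, (G j ^ m j) s := by
    funext s
    rw [← Finset.prod_div_distrib]
    refine Finset.prod_congr rfl fun j _ => ?_
    rw [Pi.pow_apply]
    rcases le_or_gt 0 (m j) with h | h
    · rw [show (-(m j)).toNat = 0 by omega, pow_zero, div_one]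
      conv_rhs => rw [← Int.toNat_of_nonneg h, zpow_natCast]
    · rw [show (m j).toNat = 0 by omega, pow_zero, one_div]
      have h2 : m j = -(((-(m j)).toNat : ℕ) : ℤ) := by omega
      conv_rhs => rw [h2, zpow_neg, zpow_natCast]
  rw [e1, meromorphicOrderAt_fun_prod fun j _ => (hm j).zpow (m j)]
  have e2 : ∀ j, meromorphicOrderAt (G j ^ m j) ρ = ((m j * (analyticOrderNatAt (G j) ρ : ℤ) : ℤ) : WithTop ℤ) := by
    intro j
    rw [meromorphicOrderAt_zpow (hm j), ((hG j).analyticAt ρ).meromorphicOrderAt_eq,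
      ← Nat.cast_analyticOrderNatAt (hne j)]
    rfl
  rw [Finset.sum_congr rfl fun j _ => e2 j]
  push_cast
  rfl

theorem comb_ds (hq : PSys q) {β : ι → P → Fin n → ℂ} (hβ : ∀ j p i, ‖β j p i‖ ≤ 1) {m : ι → ℤ}
    (hr : ∀ p k, (∑ j, (m j : ℂ) * ∑ i, β j p i ^ (k + 1)).im = 0) {s : ℂ} (hs : 1 < s.re) :
    DS (cf m β) (LG q) s = ∑ j, (m j : ℂ) * ex q (β j) s := by
  unfold DS ex
  have e1 : ∀ j, (m j : ℂ) * ∑' y : P × ℕ, (∑ i, β j y.1 i ^ (y.2 + 1)) / ((y.2 : ℂ) + 1) * cexp (-(s * LG q y)) =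
      ∑' y : P × ℕ, (m j : ℂ) * ((∑ i, β j y.1 i ^ (y.2 + 1)) / ((y.2 : ℂ) + 1) * cexp (-(s * LG q y))) := fun j =>
    tsum_mul_left.symm
  rw [Finset.sum_congr rfl fun j _ => e1 j,
    ← Summable.tsum_finsetSum fun j _ => (ex_summ hq (hβ j) hs).mul_left (m j : ℂ)]
  refine tsum_congr fun y => ?_
  have e2 : ((cf m β y : ℝ) : ℂ) = (∑ j, (m j : ℂ) * ∑ i, β j y.1 i ^ (y.2 + 1)) / ((y.2 : ℂ) + 1) := by
    unfold cf
    push_cast
    congr 1
    refine Complex.ext ?_ ?_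
    · exact Complex.ofReal_re _
    · rw [Complex.ofReal_im, hr y.1 y.2]
  rw [e2, Finset.sum_div, Finset.sum_mul]
  exact Finset.sum_congr rfl fun j _ => by ring

open scoped Classical in
/-- **Signed sums at every scale, for integer combinations of Euler products.** -/
theorem comb [Countable P] (hq : PSys q) {β : ι → P → Fin n → ℂ} (hβ : ∀ j p i, ‖β j p i‖ ≤ 1) {m : ι → ℤ}
    (hr : ∀ p k, (∑ j, (m j : ℂ) * ∑ i, β j p i ^ (k + 1)).im = 0) {G : ι → ℂ → ℂ}
    (hG : ∀ j, Differentiable ℂ (G j)) (hE : ∀ j, ∀ s : ℂ, 1 < s.re → G j s = cexp (ex q (β j) s))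
    {c : ℝ} (hc : 1 / 2 ≤ c) (hreal : ∀ j, m j < 0 → ∀ x : ℝ, c < x → G j (x : ℂ) ≠ 0) {ρ : ℂ} (hρ : c < ρ.re)
    (ho : ∑ j, m j * (analyticOrderNatAt (G j) ρ : ℤ) ≠ 0) {δ : ℝ} (hδ : 0 < δ) (A B : ℝ) :
    ∀ᶠ X : ℝ in atTop, ∃ x : ℝ, X ^ (1 - δ) ≤ x ∧ x ≤ X ∧
      A * x ^ c + B ≤ ∑' v, (if q v ≤ x then -(∑ j, (m j : ℂ) * ∑ i, β j v i).re else 0) := by
  have hne : ∀ j, analyticOrderAt (G j) ρ ≠ ⊤ := by
    intro j h1
    have h2 : AnalyticOnNhd ℂ (G j) univ := fun z _ => (hG j).analyticAt z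
    have h3 := h2.eqOn_zero_of_preconnected_of_eventuallyEq_zero isPreconnected_univ (mem_univ ρ)
      (analyticOrderAt_eq_top.1 h1)
    have h4 := h3 (mem_univ (2 : ℂ))
    rw [hE j 2 (by norm_num)] at h4
    exact Complex.exp_ne_zero _ h4
  have hU : Differentiable ℂ fun s => ∏ j, G j s ^ (m j).toNat := Differentiable.fun_finsetProd fun j _ => (hG j).pow _
  have hV : Differentiable ℂ fun s => ∏ j, G j s ^ (-(m j)).toNat :=
    Differentiable.fun_finsetProd fun j _ => (hG j).pow _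
  have hH : 0 ≤ ∑ j, |(m j : ℝ)| * n := Finset.sum_nonneg fun j _ => by positivity
  have hG1 : ∀ j, ∀ s : ℂ, 1 < s.re → G j s ≠ 0 := fun j s hs => by
    rw [hE j s hs]
    exact Complex.exp_ne_zero _
  have key := windows (q := q) hq (d := cf m β) hH (fun y => ?_) (fun t ht => ?_) hU hV (fun s hs => ?_)
    (fun s hs => ?_) hc (fun x hx => ?_) hρ ?_ hδ A B
  · filter_upwards [key] with X hX
    obtain ⟨x, h1, h2, h3⟩ := hX
    refine ⟨x, h1, h2, h3.trans (le_of_eq (tsum_congr fun v => ?_))⟩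
    unfold cf
    simp only [Nat.cast_zero, zero_add, div_one, pow_one]
  · have h1 := cf_abs (m := m) hβ y
    have h2 := neg_le_abs (cf m β y)
    have h3 : |(1 : ℝ)| / ((y.2 : ℝ) + 1) ≤ 1 := by
      rw [abs_one, div_le_one (by positivity)]
      have : (0 : ℝ) ≤ y.2 := Nat.cast_nonneg _
      linarith
    nlinarith [mul_le_mul_of_nonneg_left h3 hH]
  · refine Summable.of_nonneg_of_le (fun y => by positivity) (fun y => ?_)
      ((one_summ hq ht).mul_left (∑ j, |(m j : ℝ)| * n))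
    rw [← mul_assoc]
    exact mul_le_mul_of_nonneg_right (cf_abs hβ y) (Real.exp_pos _).le
  · exact Finset.prod_ne_zero_iff.2 fun j _ => pow_ne_zero _ (hG1 j s hs)
  · rw [comb_ds hq hβ hr hs, Complex.exp_sum, ← Finset.prod_mul_distrib]
    refine Finset.prod_congr rfl fun j _ => ?_
    rw [hE j s hs]
    rcases le_or_gt 0 (m j) with h | h
    · rw [show (-(m j)).toNat = 0 by omega, pow_zero, one_mul, ← Complex.exp_nat_mul]
      congr 1
      conv_rhs => rw [← Int.toNat_of_nonneg h]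
      push_cast
      rfl
    · rw [show (m j).toNat = 0 by omega, pow_zero, ← Complex.exp_nat_mul, ← Complex.exp_add]
      have h2 : (m j : ℂ) = -(((-(m j)).toNat : ℕ) : ℂ) := by
        have h3 : m j = -(((-(m j)).toNat : ℕ) : ℤ) := by omega
        have h4 : ((m j : ℤ) : ℂ) = ((-(((-(m j)).toNat : ℕ) : ℤ) : ℤ) : ℂ) := congrArg _ h3
        rw [h4, Int.cast_neg, Int.cast_natCast]
      rw [h2]
      rw [show ((-(m j)).toNat : ℂ) * ex q (β j) s + -((-(m j)).toNat : ℂ) * ex q (β j) s = 0 by ring, Complex.exp_zero]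
  · refine Finset.prod_ne_zero_iff.2 fun j _ => ?_
    rcases le_or_gt 0 (m j) with h | h
    · rw [show (-(m j)).toNat = 0 by omega, pow_zero]
      exact one_ne_zero
    · exact pow_ne_zero _ (hreal j h x hx)
  · rw [ord_comb hG hne]
    intro h1
    apply ho
    exact_mod_cast h1

end Pool.Agent.Q12.EC
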