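import Mathlib
import Pool.Agent.Q12.EC.Cmb
import Pool.Agent.W263.BSD.Curve

/-! Elliptic curves over `ℚ`, twisted by Dirichlet characters. -/

set_option autoImplicit false

open Complex MeasureTheory Set Filter Topology

namespace Pool.Agent.Q12.EC

open Pool.Agent.Q12.WN
open Pool.Agent.W263.BSD (GoodPrime pointCount)

section roots

/-- the roots on the unit circle with trace `2t` -/
noncomputable def rt (t : ℝ) : Fin 2 → ℂ := ![t + √(1 - t ^ 2) * I, t - √(1 - t ^ 2) * I]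

theorem rt_norm {t : ℝ} (ht : |t| ≤ 1) (i : Fin 2) : ‖rt t i‖ ≤ 1 := by
  have h1 : 0 ≤ 1 - t ^ 2 := by
    have := sq_le_one_iff_abs_le_one t |>.2 ht
    linarith
  have h2 : ∀ u : ℝ, u ^ 2 = 1 - t ^ 2 → ‖(t : ℂ) + u * I‖ ≤ 1 := by
    intro u hu
    have h3 : ‖(t : ℂ) + u * I‖ ^ 2 = 1 := by
      rw [← Complex.normSq_eq_norm_sq, Complex.normSq_add_mul_I, hu]
      ring
    have := norm_nonneg ((t : ℂ) + u * I)
    nlinarith
  fin_cases i
  · exact h2 (√(1 - t ^ 2)) (Real.sq_sqrt h1)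
  · have h3 := h2 (-√(1 - t ^ 2)) (by rw [neg_sq, Real.sq_sqrt h1])
    simp only [rt]
    push_cast at h3
    rw [neg_mul, ← sub_eq_add_neg] at h3
    exact h3

theorem rt_prod {t : ℝ} (ht : |t| ≤ 1) (z : ℂ) :
    (1 - rt t 0 * z) * (1 - rt t 1 * z) = 1 - 2 * t * z + z ^ 2 := by
  have h1 : 0 ≤ 1 - t ^ 2 := by
    have := sq_le_one_iff_abs_le_one t |>.2 ht
    linarith
  have h2 : ((√(1 - t ^ 2) : ℝ) : ℂ) ^ 2 = 1 - (t : ℂ) ^ 2 := by
    rw [← Complex.ofReal_pow, Real.sq_sqrt h1]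
    push_cast
    rfl
  have e0 : rt t 0 = t + √(1 - t ^ 2) * I := rfl
  have e1 : rt t 1 = t - √(1 - t ^ 2) * I := rfl
  rw [e0, e1]
  have e2 : (1 - ((t : ℂ) + √(1 - t ^ 2) * I) * z) * (1 - ((t : ℂ) - √(1 - t ^ 2) * I) * z) =
      1 - 2 * t * z + ((t : ℂ) ^ 2 - ((√(1 - t ^ 2) : ℝ) : ℂ) ^ 2 * I ^ 2) * z ^ 2 := by ring
  rw [e2, h2, Complex.I_sq]
  ring

theorem rt_conj (t : ℝ) : rt t 1 = (starRingEnd ℂ) (rt t 0) := by
  have e0 : rt t 0 = t + √(1 - t ^ 2) * I := rfl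
  have e1 : rt t 1 = t - √(1 - t ^ 2) * I := rfl
  rw [e0, e1, map_add, map_mul, Complex.conj_ofReal, Complex.conj_ofReal, Complex.conj_I]
  ring

/-- power sums of the roots are real -/
theorem rt_real (t : ℝ) (k : ℕ) : (∑ i, rt t i ^ k).im = 0 := by
  rw [Fin.sum_univ_two, rt_conj, ← map_pow, Complex.add_im, Complex.conj_im]
  ring

theorem rt_sum (t : ℝ) : ∑ i, rt t i = 2 * t := by
  have e0 : rt t 0 = t + √(1 - t ^ 2) * I := rfl
  have e1 : rt t 1 = t - √(1 - t ^ 2) * I := rfl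
  rw [Fin.sum_univ_two, e0, e1]
  ring

end roots

variable {a b : ℤ} {N : ℕ}

theorem three_le (a b : ZMod 3) : (Finset.univ.filter fun q : ZMod 3 × ZMod 3 =>
    q.2 ^ 2 = q.1 ^ 3 + a * q.1 + b).card ≤ 6 := by
  revert a b
  decide

theorem hasse' {p : ℕ} (h : GoodPrime a b p) : |(p : ℝ) - pointCount a b p| ≤ 2 * √p := by
  rcases Nat.lt_or_ge p 5 with h5 | h5
  · have hp := h.1
    have h3 : p = 3 := by
      have h2 := hp.two_le
      have e2 : p ≠ 2 := by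
        rintro rfl
        exact h.2 (Dvd.intro _ rfl)
      have e4 : p ≠ 4 := by
        rintro rfl
        norm_num at hp
      omega
    subst h3
    have h1 : pointCount a b 3 ≤ 6 := by
      unfold pointCount
      rw [Nat.card_eq_fintype_card, Fintype.card_subtype]
      exact three_le a b
    have h2 : (pointCount a b 3 : ℝ) ≤ 6 := by exact_mod_cast h1
    have h3 : (0 : ℝ) ≤ pointCount a b 3 := Nat.cast_nonneg _
    have h4 : (3 : ℝ) ≤ 2 * √3 := by
      have : (3 / 2 : ℝ) ≤ √3 := Real.le_sqrt_of_sq_le (by norm_num)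
      linarith
    rw [abs_le]
    push_cast
    constructor <;> linarith
  · exact Pool.Agent.W263.BSD.hasse h h5

open scoped Classical in
/-- `a_p / √p` for the good primes `p ≠ 2`, and `0` for the others -/
noncomputable def lam (a b : ℤ) (p : ℕ) : ℝ :=
  if GoodPrime a b p then ((p : ℝ) - pointCount a b p) / √p else 0

theorem lam_abs (p : ℕ) : |lam a b p / 2| ≤ 1 := by
  classical
  unfold lam
  split_ifs with h
  · have h1 : 0 < √(p : ℝ) := Real.sqrt_pos.2 (by exact_mod_cast h.1.pos)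
    rw [div_div, abs_div, abs_of_pos (by linarith : 0 < √(p : ℝ) * 2), div_le_one (by linarith), mul_comm]
    exact hasse' h
  · simp

open scoped Classical in
/-- the roots at `p` of the twist by `χ` -/
noncomputable def al (a b : ℤ) (χ : DirichletCharacter ℂ N) (p : Nat.Primes) : Fin 2 → ℂ := fun i =>
  if GoodPrime a b p then χ ((p : ℕ) : ZMod N) * rt (lam a b p / 2) i else 0

theorem al_norm (χ : DirichletCharacter ℂ N) (p : Nat.Primes) (i : Fin 2) : ‖al a b χ p i‖ ≤ 1 := by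
  classical
  unfold al
  split_ifs
  · rw [norm_mul]
    exact mul_le_one₀ (χ.norm_le_one _) (norm_nonneg _) (rt_norm (lam_abs _) i)
  · simp

/-- the norms -/
def nP (p : Nat.Primes) : ℝ := (p : ℕ)

theorem psysP : PSys nP where
  two_le := fun p => by
    unfold nP
    exact_mod_cast p.2.two_le
  summ := fun σ hσ => Nat.Primes.summable_rpow.2 (by linarith)

theorem al_sum (χ : DirichletCharacter ℂ N) (p : Nat.Primes) :
    ∑ i, al a b χ p i = χ ((p : ℕ) : ZMod N) * (lam a b p : ℂ) := by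
  classical
  unfold al
  by_cases h : GoodPrime a b p
  · simp only [if_pos h]
    rw [← Finset.mul_sum, rt_sum]
    push_cast
    ring
  · have h2 : lam a b p = 0 := by
      unfold lam
      rw [if_neg h]
    simp [if_neg h, h2]

/-- conjugation inverts the character -/
theorem al_conj [NeZero N] (χ : DirichletCharacter ℂ N) (p : Nat.Primes) (k : ℕ) :
    (starRingEnd ℂ) (∑ i, al a b χ p i ^ (k + 1)) = ∑ i, al a b χ⁻¹ p i ^ (k + 1) := by
  classical
  unfold al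
  by_cases h : GoodPrime a b p
  · simp only [if_pos h, mul_pow]
    rw [← Finset.mul_sum, ← Finset.mul_sum, map_mul, map_pow, Complex.conj_eq_iff_im.2 (rt_real _ _)]
    congr 2
    rw [← MulChar.star_eq_inv χ, MulChar.star_apply]
    rfl
  · simp [if_neg h]

open scoped Classical in
/-- The local factor. -/
theorem al_fac (χ : DirichletCharacter ℂ N) (p : Nat.Primes) (s : ℂ) :
    ∏ i, (1 - al a b χ p i * cexp (-(s * Real.log (nP p))))⁻¹ =
      if GoodPrime a b p then (1 - χ ((p : ℕ) : ZMod N) * (((p : ℕ) : ℂ) - (pointCount a b p : ℂ)) *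
        ((p : ℕ) : ℂ) ^ (-(s + 1 / 2)) + χ ((p : ℕ) : ZMod N) ^ 2 * ((p : ℕ) : ℂ) ^ (1 - 2 * (s + 1 / 2)))⁻¹ else 1 := by
  split_ifs with h
  · have hn0 : (0 : ℝ) < ((p : ℕ) : ℝ) := by exact_mod_cast p.2.pos
    have h1 : 0 < √((p : ℕ) : ℝ) := Real.sqrt_pos.2 hn0
    have h1c : ((√((p : ℕ) : ℝ) : ℝ) : ℂ) ≠ 0 := by exact_mod_cast h1.ne'
    have hnc : ((p : ℕ) : ℂ) ≠ 0 := by exact_mod_cast hn0.ne'
    have hcp : ∀ w : ℂ, ((p : ℕ) : ℂ) ^ w = cexp (w * Real.log ((p : ℕ) : ℝ)) := by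
      intro w
      rw [Complex.cpow_def_of_ne_zero hnc, ← Complex.ofReal_natCast, ← Complex.ofReal_log hn0.le]
      congr 1
      ring
    set x : ℂ := cexp (-(s * Real.log (nP p))) with hx
    have hx' : x = ((p : ℕ) : ℂ) ^ (-s) := by
      rw [hcp, hx, neg_mul]
      rfl
    have hs2 : ((√((p : ℕ) : ℝ) : ℝ) : ℂ) = ((p : ℕ) : ℂ) ^ (1 / 2 : ℂ) := by
      rw [Real.sqrt_eq_rpow, Complex.ofReal_cpow hn0.le]
      push_cast
      rfl
    have e1 : ((p : ℕ) : ℂ) ^ (-(s + 1 / 2)) = x / ((√((p : ℕ) : ℝ) : ℝ) : ℂ) := by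
      have hne : ((p : ℕ) : ℂ) ^ (1 / 2 : ℂ) ≠ 0 := hs2 ▸ h1c
      rw [hx', hs2, eq_div_iff hne, ← Complex.cpow_add _ _ hnc]
      congr 1
      ring
    have e2 : ((p : ℕ) : ℂ) ^ (1 - 2 * (s + 1 / 2)) = x ^ 2 := by
      rw [hx', ← Complex.cpow_nat_mul]
      congr 1
      push_cast
      ring
    have e3 := rt_prod (lam_abs (a := a) (b := b) p) (χ ((p : ℕ) : ZMod N) * x)
    rw [Finset.prod_inv_distrib, Fin.prod_univ_two, e1, e2]
    congr 1
    have e4 : ∀ i, al a b χ p i * x = rt (lam a b p / 2) i * (χ ((p : ℕ) : ZMod N) * x) := fun i => by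
      unfold al
      rw [if_pos h]
      ring
    rw [e4, e4, e3]
    have e5 : (lam a b p : ℂ) = (((p : ℕ) : ℂ) - (pointCount a b p : ℂ)) / ((√((p : ℕ) : ℝ) : ℝ) : ℂ) := by
      unfold lam
      rw [if_pos h]
      push_cast
      rfl
    rw [mul_pow]
    push_cast
    rw [e5]
    field_simp
  · unfold al
    simp [if_neg h]

/-- `F` is an entire function equal for `Re s > 3/2` to
`∏_{p ∤ 2(4a³+27b²)} (1 - χ(p) a_p p^{-s} + χ(p)² p^{1-2s})⁻¹`, `a_p` being `p` minus the number of solutions of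
`y² = x³ + ax + b` mod `p`. -/
def IsTwist (a b : ℤ) (χ : DirichletCharacter ℂ N) (F : ℂ → ℂ) : Prop :=
  Differentiable ℂ F ∧ ∀ s : ℂ, 3 / 2 < s.re → F s = ∏' p : {p : ℕ // GoodPrime a b p},
    (1 - χ (p.1 : ZMod N) * ((p.1 : ℂ) - (pointCount a b p.1 : ℂ)) * (p.1 : ℂ) ^ (-s) +
      χ (p.1 : ZMod N) ^ 2 * (p.1 : ℂ) ^ (1 - 2 * s))⁻¹

theorem tw_exp {χ : DirichletCharacter ℂ N} {F : ℂ → ℂ} (h : IsTwist a b χ F) {s : ℂ} (hs : 1 < s.re) :
    F (s + 1 / 2) = cexp (ex nP (al a b χ) s) := by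
  classical
  have h1 := ex_prod psysP (al_norm (a := a) (b := b) χ) hs
  rw [h.2 (s + 1 / 2) (by
    rw [Complex.add_re]
    have : (1 / 2 : ℂ).re = 1 / 2 := by norm_num
    rw [this]
    linarith), ← h1.tprod_eq]
  have h2 : ∀ p : Nat.Primes, p ∉ Set.range (fun v : {p : ℕ // GoodPrime a b p} => (⟨v.1, v.2.1⟩ : Nat.Primes)) →
      ∏ i, (1 - al a b χ p i * cexp (-(s * Real.log (nP p))))⁻¹ = 1 := by
    intro p hp
    rw [al_fac, if_neg]
    intro h3
    exact hp ⟨⟨p, h3⟩, Subtype.ext rfl⟩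
  have h3 : Function.Injective (fun v : {p : ℕ // GoodPrime a b p} => (⟨v.1, v.2.1⟩ : Nat.Primes)) := by
    intro v w hvw
    exact Subtype.ext (congrArg (fun p : Nat.Primes => (p : ℕ)) hvw)
  have h5 := h3.tprod_eq (f := fun p : Nat.Primes => ∏ i, (1 - al a b χ p i * cexp (-(s * Real.log (nP p))))⁻¹) (by
    intro p hp
    by_contra h4
    exact hp (h2 p h4))
  refine Eq.trans ?_ h5
  refine tprod_congr fun v => ?_
  have h6 := al_fac (a := a) (b := b) χ (⟨v.1, v.2.1⟩ : Nat.Primes) s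
  rw [if_pos (show GoodPrime a b ((⟨v.1, v.2.1⟩ : Nat.Primes) : ℕ) from v.2)] at h6
  exact h6.symm


open scoped Classical in
/-- **One-sided bounds in windows for integer combinations of twisted curves.** -/
theorem tw_comb [NeZero N] {ι : Type*} [Fintype ι] {a b : ι → ℤ} {χ : ι → DirichletCharacter ℂ N} {F : ι → ℂ → ℂ}
    (hF : ∀ j, IsTwist (a j) (b j) (χ j) (F j)) {m : ι → ℤ} {τ : Equiv.Perm ι}
    (hτ : ∀ j, a (τ j) = a j ∧ b (τ j) = b j ∧ m (τ j) = m j ∧ χ (τ j) = (χ j)⁻¹) {c : ℝ} (hc : 1 / 2 ≤ c)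
    (hreal : ∀ j, m j < 0 → ∀ x : ℝ, c + 1 / 2 < x → F j (x : ℂ) ≠ 0) {δ : ℝ} (hδ : 0 < δ) {A B : ℝ}
    (hw : ∃ᶠ X : ℝ in atTop, ∀ x : ℝ, X ^ (1 - δ) ≤ x → x ≤ X → -(A * x ^ c + B) ≤
      ∑' p : Nat.Primes, if ((p : ℕ) : ℝ) ≤ x then ∑ j, m j * ((χ j ((p : ℕ) : ZMod N)).re * lam (a j) (b j) p) else 0)
    {ρ : ℂ} (hρ : c + 1 / 2 < ρ.re) : ∑ j, m j * (analyticOrderNatAt (F j) ρ : ℤ) = 0 := by
  by_contra ho
  set G : ι → ℂ → ℂ := fun j s => F j (s + 1 / 2) with hG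
  have hGd : ∀ j, Differentiable ℂ (G j) := fun j => (hF j).1.comp (differentiable_id.add_const _)
  have hhalf : (1 / 2 : ℂ).re = 1 / 2 := by norm_num
  have hord : ∀ j, analyticOrderNatAt (G j) (ρ - 1 / 2) = analyticOrderNatAt (F j) ρ := by
    intro j
    have h1 : AnalyticAt ℂ (fun s : ℂ => s + 1 / 2) (ρ - 1 / 2) := analyticAt_id.add analyticAt_const
    have h2 : deriv (fun s : ℂ => s + 1 / 2) (ρ - 1 / 2) ≠ 0 := by
      rw [deriv_add_const, deriv_id'']
      exact one_ne_zero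
    have h3 := analyticOrderAt_comp_of_deriv_ne_zero (f := F j) h1 h2
    unfold analyticOrderNatAt
    have h4 : analyticOrderAt (G j) (ρ - 1 / 2) = analyticOrderAt (F j) ((ρ - 1 / 2) + 1 / 2) := h3
    rw [h4, sub_add_cancel]
  have hr : ∀ (p : Nat.Primes) (k : ℕ), (∑ j, (m j : ℂ) * ∑ i, al (a j) (b j) (χ j) p i ^ (k + 1)).im = 0 := by
    intro p k
    rw [← Complex.conj_eq_iff_im, map_sum]
    have h1 : ∀ j, (starRingEnd ℂ) ((m j : ℂ) * ∑ i, al (a j) (b j) (χ j) p i ^ (k + 1)) =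
        (m (τ j) : ℂ) * ∑ i, al (a (τ j)) (b (τ j)) (χ (τ j)) p i ^ (k + 1) := by
      intro j
      obtain ⟨h1, h2, h3, h4⟩ := hτ j
      rw [h1, h2, h3, h4, map_mul, al_conj]
      congr 1
      exact map_intCast (starRingEnd ℂ) _
    rw [Finset.sum_congr rfl fun j _ => h1 j]
    exact Equiv.sum_comp τ fun j => (m j : ℂ) * ∑ i, al (a j) (b j) (χ j) p i ^ (k + 1)
  have key := comb psysP (β := fun j => al (a j) (b j) (χ j)) (m := m) (fun j p i => al_norm _ p i) hr hGd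
    (fun j s hs => tw_exp (hF j) hs) hc (fun j hj x hx => by
      have h1 := hreal j hj (x + 1 / 2) (by linarith)
      have h2 : G j (x : ℂ) = F j (((x + 1 / 2 : ℝ)) : ℂ) := by
        rw [hG]
        simp only
        congr 1
        push_cast
        rfl
      rw [h2]
      exact h1) (ρ := ρ - 1 / 2) (by
      rw [Complex.sub_re, hhalf]
      linarith) (by
      rw [Finset.sum_congr rfl fun j _ => congrArg (fun u : ℕ => m j * (u : ℤ)) (hord j)]
      exact ho) hδ A (B + 1)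
  obtain ⟨X, h1, h2⟩ := (hw.and_eventually key).exists
  obtain ⟨x, h3, h4, h5⟩ := h2
  have h6 := h1 x h3 h4
  have h7 : (∑' v : Nat.Primes, (if nP v ≤ x then -(∑ j, (m j : ℂ) * ∑ i, al (a j) (b j) (χ j) v i).re else 0)) =
      -∑' p : Nat.Primes, if ((p : ℕ) : ℝ) ≤ x then ∑ j, m j * ((χ j ((p : ℕ) : ZMod N)).re * lam (a j) (b j) p)
        else 0 := by
    rw [← tsum_neg]
    refine tsum_congr fun p => ?_
    show (if ((p : ℕ) : ℝ) ≤ x then _ else _) = _
    split_ifs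
    · rw [Complex.re_sum]
      congr 1
      refine Finset.sum_congr rfl fun j _ => ?_
      rw [al_sum, ← Complex.ofReal_intCast, Complex.re_ofReal_mul, Complex.re_mul_ofReal]
    · rw [neg_zero]
  have h5' : A * x ^ c + (B + 1) ≤
      ∑' v : Nat.Primes, (if nP v ≤ x then -(∑ j, (m j : ℂ) * ∑ i, al (a j) (b j) (χ j) v i).re else 0) := h5
  rw [h7] at h5'
  linarith

end Pool.Agent.Q12.EC
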