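import Mathlib
import Pool.Agent.Q12.EC.Ell
import Pool.Agent.Q12.WN.RatPi

/-! Residue classes. -/

set_option autoImplicit false

open Filter
open Pool.Agent.Y243.SP (XS mem_XS)

namespace Pool.Agent.Q12.EC

variable {N : ℕ}

open scoped Classical in
/-- `∑_{p ≤ x} f(p)` -/
noncomputable def sumUpTo (f : ℕ → ℝ) (x : ℝ) : ℝ :=
  ∑' p : Nat.Primes, if ((p : ℕ) : ℝ) ≤ x then f p else 0

open scoped Classical in
/-- `1` if `χ(p) = 1` for all `χ` in the group `X` and `0` otherwise -/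
noncomputable def cls (X : Subgroup (DirichletCharacter ℂ N)) (p : ℕ) : ℝ :=
  if ∀ χ ∈ X, χ (p : ZMod N) = 1 then 1 else 0

/-- For some `A, B` and arbitrarily large `X`, `f` satisfies `f x ≥ -(A x^c + B)` in the whole window `[X^{1-δ}, X]`. -/
def BoundedBelow (c δ : ℝ) (f : ℝ → ℝ) : Prop :=
  ∃ A B : ℝ, ∃ᶠ X : ℝ in atTop, ∀ x : ℝ, X ^ (1 - δ) ≤ x → x ≤ X → -(A * x ^ c + B) ≤ f x

theorem re_sum_group [NeZero N] (X : Subgroup (DirichletCharacter ℂ N)) (p : ℕ) :
    ∑ j : {χ // χ ∈ XS X}, (j.1 (p : ZMod N)).re = (XS X).card * cls X p := by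
  by_cases h1 : IsUnit (p : ZMod N)
  · have h2 := congrArg Complex.re (WN.sum_group X h1.unit)
    rw [IsUnit.unit_spec, Complex.re_sum, Complex.ofReal_re] at h2
    rw [h2]
    unfold cls
    split_ifs <;> ring
  · have h2 : ∀ χ : DirichletCharacter ℂ N, χ (p : ZMod N) = 0 := fun χ => χ.map_nonunit h1
    have h3 : cls X p = 0 := by
      unfold cls
      rw [if_neg]
      intro h4
      have h5 := h4 1 X.one_mem
      rw [h2] at h5
      exact zero_ne_one h5
    rw [h3, mul_zero]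
    exact Finset.sum_eq_zero fun j _ => by rw [h2, Complex.zero_re]

/-- inversion of the characters -/
noncomputable def invE {κ : Type*} (X : Subgroup (DirichletCharacter ℂ N)) [NeZero N] :
    Equiv.Perm (κ × {χ // χ ∈ XS X}) where
  toFun := fun j => (j.1, ⟨j.2.1⁻¹, mem_XS.2 (X.inv_mem (mem_XS.1 j.2.2))⟩)
  invFun := fun j => (j.1, ⟨j.2.1⁻¹, mem_XS.2 (X.inv_mem (mem_XS.1 j.2.2))⟩)
  left_inv := fun j => Prod.ext rfl (Subtype.ext (inv_inv _))
  right_inv := fun j => Prod.ext rfl (Subtype.ext (inv_inv _))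

open scoped Classical in
/-- **One-sided bounds in residue classes.** -/
theorem classes [NeZero N] (X : Subgroup (DirichletCharacter ℂ N)) {κ : Type*} [Fintype κ] {a b m : κ → ℤ}
    {F : κ → DirichletCharacter ℂ N → ℂ → ℂ} (hF : ∀ i, ∀ χ ∈ X, IsTwist (a i) (b i) χ (F i χ)) {c : ℝ}
    (hc : 1 / 2 ≤ c) (hreal : ∀ i, m i < 0 → ∀ χ ∈ X, ∀ x : ℝ, c + 1 / 2 < x → F i χ (x : ℂ) ≠ 0) {δ : ℝ} (hδ : 0 < δ)
    (hw : BoundedBelow c δ (sumUpTo fun p => cls X p * ∑ i, m i * lam (a i) (b i) p)) {ρ : ℂ} (hρ : c + 1 / 2 < ρ.re) :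
    ∑ χ ∈ Finset.univ.filter (fun χ => χ ∈ X), ∑ i, m i * (analyticOrderNatAt (F i χ) ρ : ℤ) = 0 := by
  obtain ⟨A, B, hAB⟩ := hw
  set M : ℝ := ((XS X).card : ℝ) with hM
  have hM0 : 0 ≤ M := Nat.cast_nonneg _
  have h1 := tw_comb (N := N) (ι := κ × {χ // χ ∈ XS X}) (a := fun j => a j.1) (b := fun j => b j.1)
    (χ := fun j => j.2.1) (F := fun j => F j.1 j.2.1) (fun j => hF j.1 j.2.1 (mem_XS.1 j.2.2)) (m := fun j => m j.1)
    (τ := invE X) (fun j => ⟨rfl, rfl, rfl, rfl⟩) hc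
    (fun j hj x hx => hreal j.1 hj j.2.1 (mem_XS.1 j.2.2) x hx) hδ (A := M * A) (B := M * B) (by
      refine hAB.mono fun Y hY x h2 h3 => ?_
      have h4 := hY x h2 h3
      have h5 : (∑' p : Nat.Primes, if ((p : ℕ) : ℝ) ≤ x then ∑ j : κ × {χ // χ ∈ XS X},
          m j.1 * ((j.2.1 ((p : ℕ) : ZMod N)).re * lam (a j.1) (b j.1) p) else 0) =
          M * sumUpTo (fun p => cls X p * ∑ i, m i * lam (a i) (b i) p) x := by
        unfold sumUpTo
        rw [← tsum_mul_left]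
        refine tsum_congr fun p => ?_
        rw [mul_ite, mul_zero]
        congr 1
        have h6 := re_sum_group X (p : ℕ)
        show _ = M * (cls X (p : ℕ) * ∑ i, m i * lam (a i) (b i) (p : ℕ))
        rw [Fintype.sum_prod_type, ← mul_assoc, Finset.mul_sum]
        refine Finset.sum_congr rfl fun i _ => ?_
        have h7 : ∀ y : {χ // χ ∈ XS X}, (m i : ℝ) * ((y.1 ((p : ℕ) : ZMod N)).re * lam (a i) (b i) (p : ℕ)) =
            (y.1 ((p : ℕ) : ZMod N)).re * (m i * lam (a i) (b i) (p : ℕ)) := fun y => by ring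
        show ∑ y : {χ // χ ∈ XS X}, (m i : ℝ) * ((y.1 ((p : ℕ) : ZMod N)).re * lam (a i) (b i) (p : ℕ)) = _
        rw [Finset.sum_congr rfl fun y _ => h7 y, ← Finset.sum_mul, h6]
      rw [h5]
      nlinarith [mul_le_mul_of_nonneg_left h4 hM0]) hρ
  rw [Fintype.sum_prod_type_right] at h1
  rw [← h1]
  have h2 : Finset.univ.filter (fun χ => χ ∈ X) = XS X := by
    unfold XS
    rfl
  rw [h2, ← Finset.sum_coe_sort (XS X) fun χ => ∑ i, m i * (analyticOrderNatAt (F i χ) ρ : ℤ)]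

/-- zeros from the orders -/
theorem ne_of_order {F : ℂ → ℂ} {a b : ℤ} {χ : DirichletCharacter ℂ N} (hF : IsTwist a b χ F) {ρ : ℂ}
    (h : analyticOrderNatAt F ρ = 0) : F ρ ≠ 0 := by
  have hne : analyticOrderAt F ρ ≠ ⊤ := by
    intro h1
    have h2 : AnalyticOnNhd ℂ F Set.univ := fun z _ => hF.1.analyticAt z
    have h3 := h2.eqOn_zero_of_preconnected_of_eventuallyEq_zero isPreconnected_univ (Set.mem_univ ρ)
      (analyticOrderAt_eq_top.1 h1)
    have h4 := h3 (Set.mem_univ ((2 : ℂ) + 1 / 2))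
    rw [tw_exp hF (s := 2) (by norm_num)] at h4
    exact Complex.exp_ne_zero _ h4
  have h1 : analyticOrderAt F ρ = 0 := by
    rw [← Nat.cast_analyticOrderNatAt hne, h]
    rfl
  exact (hF.1.analyticAt ρ).analyticOrderAt_eq_zero.1 h1

/-- one curve, both signs -/
theorem single [NeZero N] (X : Subgroup (DirichletCharacter ℂ N)) {a b : ℤ}
    {F : DirichletCharacter ℂ N → ℂ → ℂ} (hF : ∀ χ ∈ X, IsTwist a b χ (F χ)) {c : ℝ}
    (hc : 1 / 2 ≤ c) {δ : ℝ} (hδ : 0 < δ)
    (hw : BoundedBelow c δ (sumUpTo fun p => cls X p * lam a b p) ∨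
      ((∀ χ ∈ X, ∀ x : ℝ, c + 1 / 2 < x → F χ (x : ℂ) ≠ 0) ∧
        BoundedBelow c δ (fun x => -sumUpTo (fun p => cls X p * lam a b p) x))) :
    ∀ χ ∈ X, ∀ ρ : ℂ, c + 1 / 2 < ρ.re → F χ ρ ≠ 0 := by
  classical
  intro χ hχ ρ hρ
  refine ne_of_order (hF χ hχ) ?_
  have h1 : ∑ χ ∈ Finset.univ.filter (fun χ => χ ∈ X), analyticOrderNatAt (F χ) ρ = 0 := by
    rcases hw with hw | ⟨hr, hw⟩
    · have h2 := classes X (κ := Unit) (a := fun _ => a) (b := fun _ => b) (m := fun _ => 1) (F := fun _ => F)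
        (fun _ => hF) hc (fun i hi => absurd hi (by norm_num)) hδ (by
          simpa only [Finset.univ_unique, Finset.sum_singleton, Int.cast_one, one_mul] using hw) hρ
      simp only [Finset.univ_unique, Finset.sum_singleton, one_mul] at h2
      exact_mod_cast h2
    · have h2 := classes X (κ := Unit) (a := fun _ => a) (b := fun _ => b) (m := fun _ => -1) (F := fun _ => F)
        (fun _ => hF) hc (fun i _ => hr) hδ (by
          obtain ⟨A, B, hAB⟩ := hw
          refine ⟨A, B, hAB.mono fun Y hY x h3 h4 => (hY x h3 h4).trans (le_of_eq ?_)⟩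
          show -(∑' p : Nat.Primes, if ((p : ℕ) : ℝ) ≤ x then cls X (p : ℕ) * lam a b (p : ℕ) else 0) =
            ∑' p : Nat.Primes, if ((p : ℕ) : ℝ) ≤ x then cls X (p : ℕ) * ∑ _i : Unit, ((-1 : ℤ) : ℝ) * lam a b (p : ℕ)
              else 0
          rw [← tsum_neg]
          refine tsum_congr fun p => ?_
          split_ifs
          · simp only [Finset.univ_unique, Finset.sum_singleton]
            push_cast
            ring
          · rw [neg_zero]) hρ
      simp only [Finset.univ_unique, Finset.sum_singleton, neg_mul, one_mul, Finset.sum_neg_distrib] at h2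
      have h3 := neg_eq_zero.1 h2
      exact_mod_cast h3
  have h2 := Finset.sum_eq_zero_iff.1 h1 χ (Finset.mem_filter.2 ⟨Finset.mem_univ _, hχ⟩)
  exact h2

end Pool.Agent.Q12.EC
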